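import Mathlib

/-!
# Real numbers `α` with `⌊α ^ n⌋` in a given set for all large `n`: the Hausdorff dimension
-/

set_option autoImplicit false

namespace Pool.Agent.HX6.PF

open MeasureTheory Set Filter Topology
open scoped ENNReal NNReal

/-- any `k ≥ 2` elements of `S` lie in an interval of length at least `k - 1 + g k` -/
def Spaced (S : Set ℕ) (g : ℕ → ℝ) : Prop :=
  ∀ F : Finset ℕ, 2 ≤ F.card → (∀ q ∈ F, q ∈ S) → ∀ lo ∈ F, ∀ hi ∈ F,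
    (∀ q ∈ F, lo ≤ q ∧ q ≤ hi) → (F.card : ℝ) - 1 + g F.card ≤ (hi : ℝ) - lo

/-- bounded set with all floors from `N` on in `S` -/
def T (S : Set ℕ) (N : ℕ) (a b : ℝ) : Set ℝ :=
  {α | a ≤ α ∧ α ≤ b ∧ ∀ n, N ≤ n → ⌊α ^ n⌋₊ ∈ S}

theorem pow_lo {x y : ℝ} (hx : 0 ≤ x) (hxy : x ≤ y) (m : ℕ) :
    ((m : ℝ) + 1) * x ^ m * (y - x) ≤ y ^ (m + 1) - x ^ (m + 1) := by
  induction m with
  | zero => simp
  | succ m ih =>
    have h1 : y ^ (m + 1 + 1) - x ^ (m + 1 + 1) =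
        y * (y ^ (m + 1) - x ^ (m + 1)) + x ^ (m + 1) * (y - x) := by ring
    have h2 : 0 ≤ y ^ (m + 1) - x ^ (m + 1) := sub_nonneg.2 (pow_le_pow_left₀ hx hxy _)
    have h3 : x * (y ^ (m + 1) - x ^ (m + 1)) ≤ y * (y ^ (m + 1) - x ^ (m + 1)) :=
      mul_le_mul_of_nonneg_right hxy h2
    have h4 : x * (((m : ℝ) + 1) * x ^ m * (y - x)) ≤ x * (y ^ (m + 1) - x ^ (m + 1)) :=
      mul_le_mul_of_nonneg_left ih hx
    rw [h1]
    push_cast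
    calc ((m : ℝ) + 1 + 1) * x ^ (m + 1) * (y - x)
        = x * (((m : ℝ) + 1) * x ^ m * (y - x)) + x ^ (m + 1) * (y - x) := by ring
      _ ≤ _ := by linarith

theorem pow_hi {x y : ℝ} (hx : 0 ≤ x) (hxy : x ≤ y) (m : ℕ) :
    y ^ (m + 1) - x ^ (m + 1) ≤ ((m : ℝ) + 1) * y ^ m * (y - x) := by
  induction m with
  | zero => simp
  | succ m ih =>
    have hy : 0 ≤ y := hx.trans hxy
    have h1 : y ^ (m + 1 + 1) - x ^ (m + 1 + 1) =
        y * (y ^ (m + 1) - x ^ (m + 1)) + x ^ (m + 1) * (y - x) := by ring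
    have h4 : y * (y ^ (m + 1) - x ^ (m + 1)) ≤ y * (((m : ℝ) + 1) * y ^ m * (y - x)) :=
      mul_le_mul_of_nonneg_left ih hy
    have h5 : x ^ (m + 1) * (y - x) ≤ y ^ (m + 1) * (y - x) :=
      mul_le_mul_of_nonneg_right (pow_le_pow_left₀ hx hxy _) (by linarith)
    rw [h1]
    push_cast
    calc _ ≤ y * (((m : ℝ) + 1) * y ^ m * (y - x)) + y ^ (m + 1) * (y - x) := by linarith
      _ = _ := by ring

/-- splitting into cells of level `n` -/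
theorem split (S : Set ℕ) (N : ℕ) (a b : ℝ) (n : ℕ) (hn : N ≤ n) (x y : ℝ) (hx : 0 ≤ x)
    : ∃ (F : Finset ℕ) (u v : ℕ → ℝ),
      (∀ q ∈ F, q ∈ S ∧ x ≤ u q ∧ u q ≤ v q ∧ v q ≤ y ∧ (q : ℝ) ≤ u q ^ n ∧ v q ^ n ≤ q + 1) ∧
      T S N a b ∩ Icc x y ⊆ ⋃ q ∈ F, Icc (u q) (v q) := by
  classical
  set A : ℕ → Set ℝ := fun q => {t | t ∈ Icc x y ∧ (q : ℝ) ≤ t ^ n ∧ t ^ n ≤ q + 1} with hA
  have hAc : ∀ q, IsCompact (A q) := by
    intro q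
    have : A q = Icc x y ∩ ({t | (q : ℝ) ≤ t ^ n} ∩ {t | t ^ n ≤ q + 1}) := by
      ext t; simp [hA]
    rw [this]
    exact isCompact_Icc.inter_right ((isClosed_le continuous_const (continuous_pow n)).inter
      (isClosed_le (continuous_pow n) continuous_const))
  have h1 : ∀ q, (A q).Nonempty → ∃ uv : ℝ × ℝ, uv.1 ∈ A q ∧ uv.2 ∈ A q ∧ A q ⊆ Icc uv.1 uv.2 := by
    intro q hq
    obtain ⟨u, hu⟩ := (hAc q).exists_isLeast hq
    obtain ⟨v, hv⟩ := (hAc q).exists_isGreatest hq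
    exact ⟨(u, v), hu.1, hv.1, fun t ht => ⟨hu.2 ht, hv.2 ht⟩⟩
  have h2 : ∀ q, ∃ uv : ℝ × ℝ, (A q).Nonempty → uv.1 ∈ A q ∧ uv.2 ∈ A q ∧ A q ⊆ Icc uv.1 uv.2 := by
    intro q
    by_cases hq : (A q).Nonempty
    · obtain ⟨uv, h⟩ := h1 q hq
      exact ⟨uv, fun _ => h⟩
    · exact ⟨(0, 0), fun h => absurd h hq⟩
  choose uv huv using h2
  refine ⟨(Finset.range (⌊y ^ n⌋₊ + 1)).filter (fun q => q ∈ S ∧ (A q).Nonempty),
    fun q => (uv q).1, fun q => (uv q).2, ?_, ?_⟩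
  · intro q hq
    obtain ⟨-, hqS, hqA⟩ := Finset.mem_filter.1 hq
    obtain ⟨g1, g2, g3⟩ := huv q hqA
    exact ⟨hqS, g1.1.1, (g3 g2).1, g2.1.2, g1.2.1, g2.2.2⟩
  · rintro α ⟨⟨-, -, h3⟩, hα⟩
    have h4 := h3 n hn
    have hα0 : 0 ≤ α := hx.trans hα.1
    have h5 : α ∈ A ⌊α ^ n⌋₊ :=
      ⟨hα, Nat.floor_le (pow_nonneg hα0 _), (Nat.lt_floor_add_one _).le⟩
    refine mem_iUnion₂.2 ⟨⌊α ^ n⌋₊, Finset.mem_filter.2 ⟨Finset.mem_range.2 ?_, h4, ⟨α, h5⟩⟩, ?_⟩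
    · exact Nat.lt_succ_of_le (Nat.floor_le_floor (pow_le_pow_left₀ hα0 hα.2 n))
    · exact (huv _ ⟨α, h5⟩).2.2 h5

/-- the total length of the pieces -/
theorem total {S : Set ℕ} {g : ℕ → ℝ} (hS : Spaced S g) (F : Finset ℕ) (hF : 2 ≤ F.card)
    (hFS : ∀ q ∈ F, q ∈ S) (X Y : ℝ) (U V : ℕ → ℝ)
    (h : ∀ q ∈ F, X ≤ U q ∧ U q ≤ V q ∧ V q ≤ Y ∧ (q : ℝ) ≤ U q ∧ V q ≤ q + 1) :
    ∑ q ∈ F, (V q - U q) ≤ Y - X - g F.card := by
  classical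
  have hne : F.Nonempty := Finset.card_pos.1 (by omega)
  set lo := F.min' hne with hlo
  set hi := F.max' hne with hhi
  have hlo1 : lo ∈ F := F.min'_mem hne
  have hhi1 : hi ∈ F := F.max'_mem hne
  have h1 := hS F hF hFS lo hlo1 hi hhi1 fun q hq => ⟨F.min'_le q hq, F.le_max' q hq⟩
  have hlt : lo ≠ hi := by
    intro e
    have : F.card ≤ 1 := Finset.card_le_one.2 fun p hp q hq => by
      have a1 := F.min'_le p hp
      have a2 := F.le_max' p hp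
      have a3 := F.min'_le q hq
      have a4 := F.le_max' q hq
      omega
    omega
  have hhi2 : hi ∈ F.erase lo := Finset.mem_erase.2 ⟨hlt.symm, hhi1⟩
  rw [← Finset.add_sum_erase F _ hlo1, ← Finset.add_sum_erase (F.erase lo) _ hhi2]
  have h2 : ∑ q ∈ (F.erase lo).erase hi, (V q - U q) ≤ ∑ q ∈ (F.erase lo).erase hi, (1 : ℝ) := by
    refine Finset.sum_le_sum fun q hq => ?_
    have hq' : q ∈ F := Finset.mem_of_mem_erase (Finset.mem_of_mem_erase hq)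
    have := h q hq'
    linarith [this.2.2.2.1, this.2.2.2.2]
  have h3 : (∑ q ∈ (F.erase lo).erase hi, (1 : ℝ)) = (F.card : ℝ) - 2 := by
    rw [Finset.sum_const, nsmul_eq_mul, mul_one, Finset.card_erase_of_mem hhi2,
      Finset.card_erase_of_mem hlo1]
    have : F.card - 1 - 1 = F.card - 2 := by omega
    rw [this, Nat.cast_sub hF]
    norm_num
  have h4 := h lo hlo1
  have h5 := h hi hhi1
  linarith [h4.1, h4.2.2.2.2, h5.2.2.1, h5.2.2.2.1]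

end Pool.Agent.HX6.PF
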