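import Pool.Agent.HX6.PF.A

/-!
# The key inequality and the covers
-/

set_option autoImplicit false

namespace Pool.Agent.HX6.PF

open MeasureTheory Set Filter Topology
open scoped ENNReal NNReal

/-- concavity -/
theorem conc {s : ℝ} (hs0 : 0 < s) (hs1 : s ≤ 1) (F : Finset ℕ) (hF : F.Nonempty) (w : ℕ → ℝ)
    (hw : ∀ q ∈ F, 0 ≤ w q) :
    ∑ q ∈ F, w q ^ s ≤ (F.card : ℝ) ^ (1 - s) * (∑ q ∈ F, w q) ^ s := by
  have hc : (0 : ℝ) < F.card := by exact_mod_cast Finset.card_pos.2 hF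
  have h1 := Real.rpow_sum_le_const_mul_sum_rpow_of_nonneg (s := F) (f := fun q => w q ^ s)
    (p := 1 / s) (by rw [le_div_iff₀ hs0]; linarith) (fun q hq => Real.rpow_nonneg (hw q hq) _)
  have h2 : ∑ q ∈ F, (w q ^ s) ^ (1 / s) = ∑ q ∈ F, w q := by
    refine Finset.sum_congr rfl fun q hq => ?_
    rw [← Real.rpow_mul (hw q hq), mul_one_div_cancel hs0.ne', Real.rpow_one]
  simp only [h2] at h1
  have hS0 : 0 ≤ ∑ q ∈ F, w q ^ s := Finset.sum_nonneg fun q hq => Real.rpow_nonneg (hw q hq) _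
  have hW0 : 0 ≤ ∑ q ∈ F, w q := Finset.sum_nonneg hw
  have h3 := Real.rpow_le_rpow (Real.rpow_nonneg hS0 _) h1 hs0.le
  rw [← Real.rpow_mul hS0, one_div_mul_cancel hs0.ne', Real.rpow_one,
    Real.mul_rpow (Real.rpow_nonneg hc.le _) hW0, ← Real.rpow_mul hc.le] at h3
  have e : (1 / s - 1) * s = 1 - s := by field_simp
  rwa [e] at h3

/-- the key inequality -/
theorem key {S : Set ℕ} {g : ℕ → ℝ} (hS : Spaced S g) {s a b ε : ℝ} (hs0 : 0 < s) (hs1 : s ≤ 1)
    (ha : 1 < a) (hε1 : ε ≤ 1) (hg : ∀ k, 2 ≤ k → 0 ≤ g k)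
    (hK : ∀ k : ℕ, 2 ≤ k → ∀ θ : ℝ, 0 ≤ θ → θ ≤ (1 + ε) - (1 - ε) * g k / min b (k + g k) →
      (k : ℝ) ^ (1 - s) * θ ^ s ≤ 1)
    (n : ℕ) (h1 : a⁻¹ ^ (n + 1) ≤ ε) (h2 : 1 / ((n : ℝ) + 2) ≤ ε) (x y : ℝ) (hax : a ≤ x)
    (hxy : x ≤ y) (hyb : y ≤ b) (q0 : ℕ) (hq0 : (q0 : ℝ) ≤ x ^ (n + 1)) (hq1 : y ^ (n + 1) ≤ q0 + 1)
    (F : Finset ℕ) (u v : ℕ → ℝ)
    (hF : ∀ q ∈ F, q ∈ S ∧ x ≤ u q ∧ u q ≤ v q ∧ v q ≤ y ∧ (q : ℝ) ≤ u q ^ (n + 2) ∧
      v q ^ (n + 2) ≤ q + 1) :
    ∑ q ∈ F, (v q - u q) ^ s ≤ (y - x) ^ s := by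
  have hx0 : 0 < x := by linarith
  have hy0 : 0 < y := by linarith
  have hb0 : 0 < b := by linarith
  have hI : 0 ≤ y - x := by linarith
  rcases Nat.lt_or_ge F.card 2 with hc | hc
  · have hc' : F.card = 0 ∨ F.card = 1 := by omega
    rcases hc' with h | h
    · rw [Finset.card_eq_zero.1 h, Finset.sum_empty]
      exact Real.rpow_nonneg hI _
    · obtain ⟨q, hq⟩ := Finset.card_eq_one.1 h
      rw [hq, Finset.sum_singleton]
      have := hF q (by rw [hq]; exact Finset.mem_singleton_self q)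
      exact Real.rpow_le_rpow (by linarith [this.2.2.1]) (by linarith [this.2.1, this.2.2.2.1])
        hs0.le
  · rcases hI.eq_or_lt with h0 | h0
    · have : ∑ q ∈ F, (v q - u q) ^ s = 0 := by
        refine Finset.sum_eq_zero fun q hq => ?_
        have := hF q hq
        have e : v q - u q = 0 := by linarith [this.2.1, this.2.2.1, this.2.2.2.1]
        rw [e, Real.zero_rpow hs0.ne']
      rw [this]
      exact Real.rpow_nonneg hI _
    · have hw : ∀ q ∈ F, 0 ≤ v q - u q := fun q hq => by linarith [(hF q hq).2.2.1]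
      set W := ∑ q ∈ F, (v q - u q) with hW
      have hW0 : 0 ≤ W := Finset.sum_nonneg hw
      -- the total
      have t1 := total hS F hc (fun q hq => (hF q hq).1) (x ^ (n + 2)) (y ^ (n + 2))
        (fun q => u q ^ (n + 2)) (fun q => v q ^ (n + 2)) (fun q hq => by
          obtain ⟨-, c1, c2, c3, c4, c5⟩ := hF q hq
          exact ⟨pow_le_pow_left₀ hx0.le c1 _, pow_le_pow_left₀ (by linarith) c2 _,
            pow_le_pow_left₀ (by linarith) c3 _, c4, c5⟩)
      have t2 : ((n : ℝ) + 2) * x ^ (n + 1) * W ≤ ∑ q ∈ F, (v q ^ (n + 2) - u q ^ (n + 2)) := by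
        rw [hW, Finset.mul_sum]
        refine Finset.sum_le_sum fun q hq => ?_
        obtain ⟨-, c1, c2, -, -, -⟩ := hF q hq
        have t3 := pow_lo (x := u q) (y := v q) (by linarith) c2 (n + 1)
        push_cast at t3
        have t4 : x ^ (n + 1) ≤ u q ^ (n + 1) := pow_le_pow_left₀ hx0.le c1 _
        have t5 : ((n : ℝ) + 2) * x ^ (n + 1) * (v q - u q) ≤
            ((n : ℝ) + 1 + 1) * u q ^ (n + 1) * (v q - u q) := by
          refine mul_le_mul_of_nonneg_right ?_ (hw q hq)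
          have : (0 : ℝ) ≤ (n : ℝ) + 2 := by positivity
          nlinarith
        exact t5.trans t3
      have t3 := pow_hi hx0.le hxy (n + 1)
      push_cast at t3
      have hX1 : 0 < x ^ (n + 1) := pow_pos hx0 _
      have t4 : y ^ (n + 1) ≤ x ^ (n + 1) + 1 := by linarith
      have hε0 : 0 < ε := lt_of_lt_of_le (by positivity) h2
      have t5 : 1 ≤ ε * x ^ (n + 1) := by
        have c1 : a ^ (n + 1) ≤ x ^ (n + 1) := pow_le_pow_left₀ (by linarith) hax _
        have c2 : a⁻¹ ^ (n + 1) * a ^ (n + 1) = 1 := by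
          rw [← mul_pow, inv_mul_cancel₀ (by linarith), one_pow]
        have c3 : (0 : ℝ) < a ^ (n + 1) := pow_pos (by linarith) _
        nlinarith
      set D := ((n : ℝ) + 2) * x ^ (n + 1) with hD
      have hD0 : 0 < D := by positivity
      have t6 : ((n : ℝ) + 1 + 1) * y ^ (n + 1) * (y - x) ≤ D * ((y - x) * (1 + ε)) := by
        have c1 : ((n : ℝ) + 1 + 1) * y ^ (n + 1) ≤ D * (1 + ε) := by
          rw [hD]
          have : (0 : ℝ) < (n : ℝ) + 2 := by positivity
          nlinarith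
        calc ((n : ℝ) + 1 + 1) * y ^ (n + 1) * (y - x) ≤ D * (1 + ε) * (y - x) :=
              mul_le_mul_of_nonneg_right c1 hI
          _ = _ := by ring
      -- the length of `I`
      have t7 : ((n : ℝ) + 1) * x ^ n * (y - x) ≤ 1 := by
        have := pow_lo hx0.le hxy n
        linarith
      have t8 : D * ((y - x) * (1 - ε)) ≤ b := by
        have c1 : (1 - ε) * ((n : ℝ) + 2) ≤ (n : ℝ) + 1 := by
          rw [div_le_iff₀ (by positivity)] at h2
          linarith
        have c2 : D * ((y - x) * (1 - ε)) = ((1 - ε) * ((n : ℝ) + 2)) * (x * (x ^ n * (y - x))) := by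
          rw [hD]; ring
        rw [c2]
        calc ((1 - ε) * ((n : ℝ) + 2)) * (x * (x ^ n * (y - x)))
            ≤ ((n : ℝ) + 1) * (x * (x ^ n * (y - x))) :=
              mul_le_mul_of_nonneg_right c1 (by positivity)
          _ = x * (((n : ℝ) + 1) * x ^ n * (y - x)) := by ring
          _ ≤ x * 1 := mul_le_mul_of_nonneg_left t7 hx0.le
          _ ≤ b := by linarith
      have hgk := hg F.card hc
      have t9 : D * ((y - x) * ((1 - ε) * g F.card / b)) ≤ g F.card := by
        have e : D * ((y - x) * ((1 - ε) * g F.card / b)) =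
            D * ((y - x) * (1 - ε)) / b * g F.card := by ring
        rw [e]
        have c1 : D * ((y - x) * (1 - ε)) / b ≤ 1 := by
          rw [div_le_one hb0]; exact t8
        nlinarith
      have t10 : D * W ≤ D * ((y - x) * (1 + ε)) - g F.card := by
        have e2 : x ^ (n + 1 + 1) = x ^ (n + 2) := rfl
        linarith
      have hk0 : (0 : ℝ) < F.card := by
        have : 0 < F.card := by omega
        exact_mod_cast this
      have t10' : D * W ≤ F.card := by
        refine t2.trans ?_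
        have : ∑ q ∈ F, (v q ^ (n + 2) - u q ^ (n + 2)) ≤ ∑ q ∈ F, (1 : ℝ) :=
          Finset.sum_le_sum fun q hq => by
            obtain ⟨-, -, -, -, c4, c5⟩ := hF q hq
            linarith
        simpa using this
      have t11 : D * W ≤ D * ((y - x) * ((1 + ε) - (1 - ε) * g F.card / min b (F.card + g F.card))) := by
        have e : ∀ z : ℝ, D * ((y - x) * ((1 + ε) - (1 - ε) * g F.card / z)) =
            D * ((y - x) * (1 + ε)) - D * ((y - x) * ((1 - ε) * g F.card / z)) := fun z => by ring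
        rcases min_choice b (F.card + g F.card) with hm | hm
        · rw [hm, e]
          linarith
        · rw [hm]
          set Λ := D * (y - x) with hΛ
          have hΛ0 : 0 < Λ := mul_pos hD0 h0
          have hkg : (0 : ℝ) < F.card + g F.card := by linarith
          rcases le_total (Λ * (1 + ε)) (F.card + g F.card) with hc1 | hc1
          · rw [e]
            have c1 : D * ((y - x) * ((1 - ε) * g F.card / (F.card + g F.card))) ≤ g F.card := by
              have e3 : D * ((y - x) * ((1 - ε) * g F.card / (F.card + g F.card))) =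
                  (Λ * (1 - ε)) / (F.card + g F.card) * g F.card := by rw [hΛ]; ring
              rw [e3]
              have c2 : (Λ * (1 - ε)) / (F.card + g F.card) ≤ 1 := by
                rw [div_le_one hkg]
                nlinarith
              nlinarith
            linarith
          · refine t10'.trans ?_
            have e3 : D * ((y - x) * ((1 + ε) - (1 - ε) * g F.card / (F.card + g F.card))) =
                Λ * (1 + ε) - Λ * (1 - ε) * (g F.card / (F.card + g F.card)) := by rw [hΛ]; ring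
            rw [e3]
            set ρ := g F.card / (F.card + g F.card) with hρ
            have hρ0 : 0 ≤ ρ := div_nonneg hgk hkg.le
            have hρ1 : ρ * (F.card + g F.card) = g F.card := by
              rw [hρ, div_mul_cancel₀ _ hkg.ne']
            have hρ2 : ρ ≤ 1 := by
              rw [hρ, div_le_one hkg]; linarith
            have c1 : Λ * (1 - ε) * ρ ≤ Λ * (1 + ε) * ρ := by
              refine mul_le_mul_of_nonneg_right ?_ hρ0
              nlinarith
            have c2 : (F.card + g F.card) * (1 - ρ) ≤ Λ * (1 + ε) * (1 - ρ) :=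
              mul_le_mul_of_nonneg_right hc1 (by linarith)
            nlinarith
      have t11' : W ≤ (y - x) * ((1 + ε) - (1 - ε) * g F.card / min b (F.card + g F.card)) :=
        le_of_mul_le_mul_left t11 hD0
      have t12 : W / (y - x) ≤ (1 + ε) - (1 - ε) * g F.card / min b (F.card + g F.card) := by
        rw [div_le_iff₀ h0]; linarith
      have t13 := hK F.card hc (W / (y - x)) (div_nonneg hW0 hI) t12
      have t14 := conc hs0 hs1 F (Finset.card_pos.1 (by omega)) (fun q => v q - u q) hw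
      refine t14.trans ?_
      have e3 : W ^ s = (W / (y - x)) ^ s * (y - x) ^ s := by
        rw [← Real.mul_rpow (div_nonneg hW0 hI) hI, div_mul_cancel₀ _ h0.ne']
      simp only [← hW]
      rw [e3, ← mul_assoc]
      have := Real.rpow_nonneg hI s
      nlinarith

/-- covers -/
theorem cover {S : Set ℕ} {g : ℕ → ℝ} (hS : Spaced S g) {s a b ε : ℝ} (hs0 : 0 < s) (hs1 : s ≤ 1)
    (ha : 1 < a) (hε1 : ε ≤ 1) (hg : ∀ k, 2 ≤ k → 0 ≤ g k)
    (hK : ∀ k : ℕ, 2 ≤ k → ∀ θ : ℝ, 0 ≤ θ → θ ≤ (1 + ε) - (1 - ε) * g k / min b (k + g k) →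
      (k : ℝ) ^ (1 - s) * θ ^ s ≤ 1) (N n0 : ℕ) (hN : N ≤ n0)
    (h12 : ∀ n, n0 ≤ n → a⁻¹ ^ (n + 1) ≤ ε ∧ 1 / ((n : ℝ) + 2) ≤ ε) (j : ℕ) :
    ∀ n, n0 ≤ n → ∀ x y : ℝ, a ≤ x → x ≤ y → y ≤ b → ∀ q0 : ℕ, (q0 : ℝ) ≤ x ^ (n + 1) →
      y ^ (n + 1) ≤ q0 + 1 → ∃ (ι : Type) (_ : Fintype ι) (u v : ι → ℝ),
        (∀ i, u i ≤ v i ∧ v i - u i ≤ a⁻¹ ^ (n + j)) ∧
        T S N a b ∩ Icc x y ⊆ ⋃ i, Icc (u i) (v i) ∧ ∑ i, (v i - u i) ^ s ≤ (y - x) ^ s := by
  induction j with
  | zero =>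
    intro n hn x y hax hxy hyb q0 hq0 hq1
    refine ⟨Unit, inferInstance, fun _ => x, fun _ => y, fun _ => ⟨hxy, ?_⟩, ?_, ?_⟩
    · have hx0 : 0 < x := by linarith
      have h1 := pow_lo hx0.le hxy n
      have h2 : x ^ n * (y - x) ≤ 1 := by
        have h3 : x ^ n * (y - x) ≤ ((n : ℝ) + 1) * (x ^ n * (y - x)) := by
          have : 0 ≤ x ^ n * (y - x) := mul_nonneg (pow_nonneg hx0.le _) (by linarith)
          have h4 : (0 : ℝ) ≤ n := Nat.cast_nonneg n
          nlinarith
        have h5 : ((n : ℝ) + 1) * (x ^ n * (y - x)) = ((n : ℝ) + 1) * x ^ n * (y - x) := by ring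
        linarith
      have h3 : a ^ n ≤ x ^ n := pow_le_pow_left₀ (by linarith) hax _
      have h4 : (0 : ℝ) < a ^ n := pow_pos (by linarith) _
      have h5 : a ^ n * (y - x) ≤ 1 :=
        (mul_le_mul_of_nonneg_right h3 (by linarith)).trans h2
      rw [add_zero, inv_pow, ← one_div, le_div_iff₀ h4]
      linarith
    · intro t ht
      exact mem_iUnion.2 ⟨(), ht.2⟩
    · simp
  | succ j ih =>
    intro n hn x y hax hxy hyb q0 hq0 hq1
    obtain ⟨F, u, v, hF, hcov⟩ := split S N a b (n + 2) (by omega) x y (by linarith)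
    have hk := key hS hs0 hs1 ha hε1 hg hK n (h12 n hn).1 (h12 n hn).2 x y hax hxy hyb q0 hq0 hq1
      F u v hF
    have h1 : ∀ q : F, ∃ (ι : Type) (_ : Fintype ι) (u' v' : ι → ℝ),
        (∀ i, u' i ≤ v' i ∧ v' i - u' i ≤ a⁻¹ ^ (n + 1 + j)) ∧
        T S N a b ∩ Icc (u q) (v q) ⊆ ⋃ i, Icc (u' i) (v' i) ∧
        ∑ i, (v' i - u' i) ^ s ≤ (v q - u q) ^ s := by
      rintro ⟨q, hq⟩
      obtain ⟨-, c1, c2, c3, c4, c5⟩ := hF q hq
      exact ih (n + 1) (by omega) (u q) (v q) (by linarith) c2 (by linarith) q c4 c5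
    choose ι hι u' v' h2 h3 h4 using h1
    refine ⟨Σ q : F, ι q, inferInstance, fun i => u' i.1 i.2, fun i => v' i.1 i.2,
      fun i => ⟨(h2 i.1 i.2).1, ?_⟩, ?_, ?_⟩
    · have := (h2 i.1 i.2).2
      rwa [show n + 1 + j = n + (j + 1) by ring] at this
    · intro t ht
      obtain ⟨q, hq, htq⟩ := mem_iUnion₂.1 (hcov ht)
      obtain ⟨i, hi⟩ := mem_iUnion.1 (h3 ⟨q, hq⟩ ⟨ht.1, htq⟩)
      exact mem_iUnion.2 ⟨⟨⟨q, hq⟩, i⟩, hi⟩
    · rw [Fintype.sum_sigma]
      refine (Finset.sum_le_sum fun q _ => h4 q).trans ?_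
      rw [Finset.sum_coe_sort F (fun q => (v q - u q) ^ s)]
      exact hk

end Pool.Agent.HX6.PF
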