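import Pool.Agent.HX6.PF.B

/-!
# The Hausdorff dimension
-/

set_option autoImplicit false

namespace Pool.Agent.HX6.PF

open MeasureTheory Set Filter Topology
open scoped ENNReal NNReal

/-- room for a small error -/
theorem room {g : ℕ → ℝ} {s b : ℝ} (hs0 : 0 < s) (hb : 0 < b)
    (hs : ∀ k : ℕ, 2 ≤ k → (k : ℝ) ^ (1 - s) * (max 0 (1 - g k / min b (k + g k))) ^ s < 1)
    (hgrow : ∃ K : ℕ, ∀ k, K ≤ k → 3 * b ≤ g k) :
    ∃ ε : ℝ, 0 < ε ∧ ε ≤ 1 ∧ ∀ k : ℕ, 2 ≤ k → ∀ θ : ℝ, 0 ≤ θ →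
      θ ≤ (1 + ε) - (1 - ε) * g k / min b (k + g k) → (k : ℝ) ^ (1 - s) * θ ^ s ≤ 1 := by
  obtain ⟨K, hK⟩ := hgrow
  have h1 : ∀ᶠ ε : ℝ in 𝓝 0, ∀ k ∈ Finset.range K, 2 ≤ k →
      (k : ℝ) ^ (1 - s) * (max 0 ((1 + ε) - (1 - ε) * g k / min b (k + g k))) ^ s < 1 := by
    rw [Filter.eventually_all_finset]
    intro k _
    by_cases h2k : 2 ≤ k
    · have hc : Continuous fun ε : ℝ =>
          (k : ℝ) ^ (1 - s) * (max 0 ((1 + ε) - (1 - ε) * g k / min b (k + g k))) ^ s := by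
        refine continuous_const.mul (Continuous.rpow_const ?_ fun x => Or.inr hs0.le)
        fun_prop
      have h0 := hs k h2k
      have e : (k : ℝ) ^ (1 - s) * (max 0 ((1 + (0 : ℝ)) - (1 - 0) * g k / min b (k + g k))) ^ s < 1 := by
        simpa using h0
      filter_upwards [hc.continuousAt.eventually_lt continuousAt_const e] with ε hε
      exact fun _ => hε
    · exact Eventually.of_forall fun ε h => absurd h h2k
  have h2 : ∀ᶠ ε : ℝ in 𝓝[>] 0, ∀ k ∈ Finset.range K, 2 ≤ k →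
      (k : ℝ) ^ (1 - s) * (max 0 ((1 + ε) - (1 - ε) * g k / min b (k + g k))) ^ s < 1 :=
    nhdsWithin_le_nhds h1
  have h3 : ∀ᶠ ε : ℝ in 𝓝[>] 0, ε ∈ Ioc (0 : ℝ) (1 / 2) := Ioc_mem_nhdsGT (by norm_num)
  obtain ⟨ε, hε1, hε2⟩ := (h2.and h3).exists
  refine ⟨ε, hε2.1, hε2.2.trans (by norm_num), fun k hk θ hθ0 hθ => ?_⟩
  rcases lt_or_ge k K with hkK | hkK
  · have h4 := hε1 k (Finset.mem_range.2 hkK) hk
    refine le_trans ?_ h4.le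
    refine mul_le_mul_of_nonneg_left ?_ (Real.rpow_nonneg (Nat.cast_nonneg _) _)
    exact Real.rpow_le_rpow hθ0 (hθ.trans (le_max_right _ _)) hs0.le
  · have h4 := hK k hkK
    have hmin : min b (k + g k) = b := by
      refine min_eq_left ?_
      have : (0 : ℝ) ≤ k := Nat.cast_nonneg k
      linarith
    rw [hmin] at hθ
    have h5 : 3 ≤ g k / b := by rw [le_div_iff₀ hb]; exact h4
    have h6 : (1 - ε) * g k / b = (1 - ε) * (g k / b) := by ring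
    have h7 : (1 - ε) * 3 ≤ (1 - ε) * (g k / b) :=
      mul_le_mul_of_nonneg_left h5 (by linarith [hε2.2])
    have h8 : θ = 0 := by
      rw [h6] at hθ
      have := hε2.2
      linarith
    rw [h8, Real.zero_rpow hs0.ne', mul_zero]
    norm_num

/-- the dimension of the bounded sets -/
theorem dim_T {S : Set ℕ} {g : ℕ → ℝ} (hS : Spaced S g) {s : ℝ≥0} {a b : ℝ} (hs0 : 0 < s)
    (hs1 : s ≤ 1) (ha : 1 < a) (hab : a ≤ b) (hg : ∀ k, 2 ≤ k → 0 ≤ g k)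
    (hs : ∀ k : ℕ, 2 ≤ k → (k : ℝ) ^ (1 - (s : ℝ)) * (max 0 (1 - g k / min b (k + g k))) ^ (s : ℝ) < 1)
    (hgrow : ∃ K : ℕ, ∀ k, K ≤ k → 3 * b ≤ g k) (N : ℕ) : dimH (T S N a b) ≤ s := by
  have hs0' : (0 : ℝ) < s := by exact_mod_cast hs0
  have hs1' : (s : ℝ) ≤ 1 := by exact_mod_cast hs1
  obtain ⟨ε, hε0, hε1, hK⟩ := room hs0' (by linarith) hs hgrow
  have hlim1 : Tendsto (fun n : ℕ => a⁻¹ ^ (n + 1)) atTop (𝓝 0) :=
    (tendsto_pow_atTop_nhds_zero_of_lt_one (by positivity) (inv_lt_one_of_one_lt₀ ha)).comp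
      (tendsto_add_atTop_nat 1)
  have hlim2 : Tendsto (fun n : ℕ => 1 / ((n : ℝ) + 2)) atTop (𝓝 0) := by
    have h1 : Tendsto (fun n : ℕ => 1 / (((n + 1 : ℕ) : ℝ) + 1)) atTop (𝓝 0) :=
      tendsto_one_div_add_atTop_nhds_zero_nat.comp (tendsto_add_atTop_nat 1)
    refine h1.congr fun n => ?_
    push_cast
    ring_nf
  obtain ⟨n1, hn1⟩ := eventually_atTop.1 (((hlim1.eventually (eventually_le_nhds hε0))).and
    (hlim2.eventually (eventually_le_nhds hε0)))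
  set n0 := max N n1 with hn0
  have h12 : ∀ n, n0 ≤ n → a⁻¹ ^ (n + 1) ≤ ε ∧ 1 / ((n : ℝ) + 2) ≤ ε := fun n hn =>
    hn1 n ((le_max_right N n1).trans hn)
  obtain ⟨F, u, v, hF, hcov⟩ := split S N a b (n0 + 1) (by omega) a b (by linarith)
  have h1 : ∀ (j : ℕ) (q : F), ∃ (ι : Type) (_ : Fintype ι) (u' v' : ι → ℝ),
      (∀ i, u' i ≤ v' i ∧ v' i - u' i ≤ a⁻¹ ^ (n0 + j)) ∧
      T S N a b ∩ Icc (u q) (v q) ⊆ ⋃ i, Icc (u' i) (v' i) ∧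
      ∑ i, (v' i - u' i) ^ (s : ℝ) ≤ (v q - u q) ^ (s : ℝ) := by
    rintro j ⟨q, hq⟩
    obtain ⟨-, c1, c2, c3, c4, c5⟩ := hF q hq
    exact cover hS hs0' hs1' ha hε1 hg hK N n0 (le_max_left _ _) h12 j n0 le_rfl (u q) (v q) c1 c2
      c3 q c4 c5
  choose ι hι u' v' h2 h3 h4 using h1
  set C : ℝ := ∑ q : F, (v q - u q) ^ (s : ℝ) with hC
  have hlim3 : Tendsto (fun j : ℕ => ENNReal.ofReal (a⁻¹ ^ (n0 + j))) atTop (𝓝 0) := by
    have h5 : Tendsto (fun j : ℕ => a⁻¹ ^ (n0 + j)) atTop (𝓝 0) := by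
      have := (tendsto_pow_atTop_nhds_zero_of_lt_one (r := a⁻¹) (by positivity)
        (inv_lt_one_of_one_lt₀ ha)).comp (tendsto_add_atTop_nat n0)
      refine this.congr fun j => ?_
      simp [add_comm]
    simpa using ENNReal.tendsto_ofReal h5
  have h5 : Measure.hausdorffMeasure (s : ℝ) (T S N a b) ≤
      liminf (fun j => ∑ i : (Σ q : F, ι j q),
        Metric.ediam (Icc (u' j i.1 i.2) (v' j i.1 i.2)) ^ (s : ℝ)) atTop := by
    refine Measure.hausdorffMeasure_le_liminf_sum (ι := fun j => Σ q : F, ι j q) (s : ℝ)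
      (T S N a b) (fun j => ENNReal.ofReal (a⁻¹ ^ (n0 + j))) hlim3
      (fun j i => Icc (u' j i.1 i.2) (v' j i.1 i.2)) ?_ ?_
    · refine Eventually.of_forall fun j i => ?_
      rw [Real.ediam_Icc]
      exact ENNReal.ofReal_le_ofReal (h2 j i.1 i.2).2
    · refine Eventually.of_forall fun j t ht => ?_
      obtain ⟨q, hq, htq⟩ := mem_iUnion₂.1 (hcov ⟨ht, ht.1, ht.2.1⟩)
      obtain ⟨i, hi⟩ := mem_iUnion.1 (h3 j ⟨q, hq⟩ ⟨ht, htq⟩)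
      exact mem_iUnion.2 ⟨⟨⟨q, hq⟩, i⟩, hi⟩
  have h6 : ∀ j, ∑ i : (Σ q : F, ι j q),
      Metric.ediam (Icc (u' j i.1 i.2) (v' j i.1 i.2)) ^ (s : ℝ) ≤ ENNReal.ofReal C := by
    intro j
    have e : ∀ i : (Σ q : F, ι j q), Metric.ediam (Icc (u' j i.1 i.2) (v' j i.1 i.2)) ^ (s : ℝ) =
        ENNReal.ofReal ((v' j i.1 i.2 - u' j i.1 i.2) ^ (s : ℝ)) := by
      intro i
      rw [Real.ediam_Icc, ENNReal.ofReal_rpow_of_nonneg (by linarith [(h2 j i.1 i.2).1]) hs0'.le]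
    simp only [e]
    rw [← ENNReal.ofReal_sum_of_nonneg fun i _ =>
      Real.rpow_nonneg (by linarith [(h2 j i.1 i.2).1]) _]
    refine ENNReal.ofReal_le_ofReal ?_
    rw [Fintype.sum_sigma]
    exact Finset.sum_le_sum fun q _ => h4 j q
  have h7 : Measure.hausdorffMeasure (s : ℝ) (T S N a b) ≤ ENNReal.ofReal C := by
    refine h5.trans ((liminf_le_liminf (Eventually.of_forall h6)).trans ?_)
    simp
  exact dimH_le_of_hausdorffMeasure_ne_top (ne_top_of_le_ne_top ENNReal.ofReal_ne_top h7)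

/-- **General bound.** -/
theorem dim_gen {S : Set ℕ} {g : ℕ → ℝ} (hS : Spaced S g) {s : ℝ≥0} {b : ℝ} (hs0 : 0 < s)
    (hs1 : s ≤ 1) (hg : ∀ k, 2 ≤ k → 0 ≤ g k)
    (hs : ∀ k : ℕ, 2 ≤ k → (k : ℝ) ^ (1 - (s : ℝ)) * (max 0 (1 - g k / min b (k + g k))) ^ (s : ℝ) < 1)
    (hgrow : ∃ K : ℕ, ∀ k, K ≤ k → 3 * b ≤ g k) :
    dimH {α : ℝ | 1 < α ∧ α ≤ b ∧ ∃ N, ∀ n, N ≤ n → ⌊α ^ n⌋₊ ∈ S} ≤ s := by
  have h1 : {α : ℝ | 1 < α ∧ α ≤ b ∧ ∃ N, ∀ n, N ≤ n → ⌊α ^ n⌋₊ ∈ S} ⊆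
      ⋃ i : ℕ × ℕ, T S i.1 (1 + 1 / ((i.2 : ℝ) + 1)) b := by
    rintro α ⟨hα, hαb, N, hN⟩
    obtain ⟨m, hm⟩ := exists_nat_one_div_lt (sub_pos.2 hα)
    exact mem_iUnion.2 ⟨(N, m), by simp only; linarith, hαb, hN⟩
  refine (dimH_mono h1).trans ?_
  rw [dimH_iUnion]
  refine iSup_le fun i => ?_
  by_cases hab : 1 + 1 / ((i.2 : ℝ) + 1) ≤ b
  · exact dim_T hS hs0 hs1 (by
      have : (0 : ℝ) < 1 / ((i.2 : ℝ) + 1) := by positivity
      linarith) hab hg hs hgrow i.1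
  · have : T S i.1 (1 + 1 / ((i.2 : ℝ) + 1)) b = ∅ := by
      ext t
      simp only [T, mem_ofPred_eq, mem_empty_iff_false, iff_false]
      rintro ⟨c1, c2, -⟩
      exact hab (c1.trans c2)
    rw [this, dimH_empty]
    exact zero_le

end Pool.Agent.HX6.PF
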