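import Pool.Agent.HX6.PF.C

/-!
# Odd integer parts
-/

set_option autoImplicit false

namespace Pool.Agent.HX6.PF

open MeasureTheory Set Filter Topology
open scoped ENNReal NNReal

/-- the real numbers in `(1, b]` with `⌊α ^ n⌋` odd for all large `n` -/
def EO (b : ℝ) : Set ℝ := {α | 1 < α ∧ α ≤ b ∧ ∃ N, ∀ n, N ≤ n → ⌊α ^ n⌋₊ ∈ {q : ℕ | Odd q}}

theorem spaced_odd : Spaced {q : ℕ | Odd q} (fun k => (k : ℝ) - 1) := by
  intro F hF hFS lo hlo hi hhi h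
  have h1 : F.card ≤ (Finset.Icc (lo / 2) (hi / 2)).card := by
    refine Finset.card_le_card_of_injOn (fun q => q / 2) ?_ ?_
    · intro q hq
      have := h q hq
      exact Finset.mem_coe.2 (Finset.mem_Icc.2
        ⟨Nat.div_le_div_right this.1, Nat.div_le_div_right this.2⟩)
    · intro p hp q hq hpq
      obtain ⟨c, hc⟩ := hFS p hp
      obtain ⟨c', hc'⟩ := hFS q hq
      simp only at hpq
      omega
  rw [Nat.card_Icc] at h1
  obtain ⟨c, hc⟩ := hFS lo hlo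
  obtain ⟨c', hc'⟩ := hFS hi hhi
  have h3 : 2 * (F.card - 1) + lo ≤ hi := by
    have := (h lo hlo).2
    omega
  have h4 : (2 * ((F.card : ℝ) - 1) + lo) ≤ hi := by
    have h5 : ((2 * (F.card - 1) + lo : ℕ) : ℝ) ≤ (hi : ℝ) := by exact_mod_cast h3
    have h6 : ((F.card - 1 : ℕ) : ℝ) = (F.card : ℝ) - 1 := by
      rw [Nat.cast_sub (by omega)]; norm_num
    push_cast [h6] at h5
    exact h5
  simp only
  linarith

/-- criterion -/
theorem dim_EO {s : ℝ≥0} {b : ℝ} (hs0 : 0 < s) (hs1 : s ≤ 1)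
    (hs : ∀ k : ℕ, 2 ≤ k → (k : ℝ) ^ (1 - (s : ℝ)) *
      (max 0 (1 - ((k : ℝ) - 1) / min b (k + ((k : ℝ) - 1)))) ^ (s : ℝ) < 1) :
    dimH (EO b) ≤ s := by
  refine dim_gen spaced_odd hs0 hs1 ?_ hs ?_
  · intro k hk
    have : (2 : ℝ) ≤ k := by exact_mod_cast hk
    linarith
  · refine ⟨⌈3 * b⌉₊ + 1, fun k hk => ?_⟩
    have h1 := Nat.le_ceil (3 * b)
    have h2 : ((⌈3 * b⌉₊ + 1 : ℕ) : ℝ) ≤ k := by exact_mod_cast hk
    push_cast at h2
    linarith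

/-- the condition for `k = 2` implies all the others -/
theorem crit {s b : ℝ} (hs0 : 0 < s) (hs1 : s ≤ 1) (hb : 1 < b)
    (h : (2 : ℝ) ^ (1 - s) * (1 - 1 / b) ^ s < 1) (k : ℕ) (hk : 2 ≤ k) :
    (k : ℝ) ^ (1 - s) * (max 0 (1 - ((k : ℝ) - 1) / min b (k + ((k : ℝ) - 1)))) ^ s < 1 := by
  have hk2 : (2 : ℝ) ≤ k := by exact_mod_cast hk
  have hb0 : 0 < b := by linarith
  have hA0 : 0 ≤ 1 - 1 / b := by
    have : 1 / b ≤ 1 := by rw [div_le_one hb0]; linarith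
    linarith
  obtain ⟨m, rfl⟩ : ∃ m, k = m + 1 := ⟨k - 1, by omega⟩
  have hm : m ≠ 0 := by omega
  have h1 : max 0 (1 - (((m + 1 : ℕ) : ℝ) - 1) / min b (((m + 1 : ℕ) : ℝ) + (((m + 1 : ℕ) : ℝ) - 1)))
      ≤ (1 - 1 / b) ^ m := by
    refine max_le (pow_nonneg hA0 _) ?_
    have h2 := one_add_mul_le_pow (a := -(1 / b)) (by
      have : 1 / b ≤ 1 := by rw [div_le_one hb0]; linarith
      linarith) m
    have h3 : (m : ℝ) / b ≤ (((m + 1 : ℕ) : ℝ) - 1) /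
        min b (((m + 1 : ℕ) : ℝ) + (((m + 1 : ℕ) : ℝ) - 1)) := by
      have e : ((m + 1 : ℕ) : ℝ) - 1 = m := by push_cast; ring
      rw [e]
      refine div_le_div_of_nonneg_left (Nat.cast_nonneg m) (lt_min hb0 ?_) (min_le_left _ _)
      push_cast
      positivity
    have e2 : (1 : ℝ) + -(1 / b) = 1 - 1 / b := by ring
    have e3 : (1 : ℝ) + m * -(1 / b) = 1 - m / b := by ring
    rw [e2, e3] at h2
    linarith
  have h4 : ((m + 1 : ℕ) : ℝ) ≤ 2 ^ m := by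
    have : m + 1 ≤ 2 ^ m := Nat.lt_two_pow_self
    exact_mod_cast this
  calc ((m + 1 : ℕ) : ℝ) ^ (1 - s) * (max 0 (1 - (((m + 1 : ℕ) : ℝ) - 1) /
        min b (((m + 1 : ℕ) : ℝ) + (((m + 1 : ℕ) : ℝ) - 1)))) ^ s
      ≤ ((2 : ℝ) ^ m) ^ (1 - s) * ((1 - 1 / b) ^ m) ^ s := by
        refine mul_le_mul (Real.rpow_le_rpow (Nat.cast_nonneg _) h4 (by linarith))
          (Real.rpow_le_rpow (le_max_left _ _) h1 hs0.le) (Real.rpow_nonneg (le_max_left _ _) _)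
          (Real.rpow_nonneg (by positivity) _)
    _ = ((2 : ℝ) ^ (1 - s) * (1 - 1 / b) ^ s) ^ m := by
        rw [mul_pow, ← Real.rpow_natCast, ← Real.rpow_natCast ((2 : ℝ) ^ (1 - s)),
          ← Real.rpow_natCast ((1 - 1 / b) ^ s), ← Real.rpow_natCast (1 - 1 / b),
          ← Real.rpow_mul (by norm_num), ← Real.rpow_mul hA0, ← Real.rpow_mul (by norm_num),
          ← Real.rpow_mul hA0, mul_comm (m : ℝ) (1 - s), mul_comm (m : ℝ) s]
    _ < 1 := pow_lt_one₀ (mul_nonneg (Real.rpow_nonneg (by norm_num) _) (Real.rpow_nonneg hA0 _)) h hm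

/-- from the critical exponent to the dimension -/
theorem of_crit {c : ℝ} (hc0 : 0 ≤ c) (hc1 : c < 1) {X : Set ℝ}
    (h : ∀ s : ℝ≥0, 0 < s → s ≤ 1 → c < s → dimH X ≤ s) : dimH X ≤ ENNReal.ofReal c := by
  by_contra hcon
  rw [not_le] at hcon
  have h1 : ENNReal.ofReal c < min (dimH X) 1 := by
    refine lt_min hcon ?_
    rw [← ENNReal.ofReal_one]
    exact (ENNReal.ofReal_lt_ofReal_iff (by norm_num)).2 hc1
  obtain ⟨s, hs1, hs2⟩ := ENNReal.lt_iff_exists_nnreal_btwn.1 h1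
  have h2 : c < (s : ℝ) := by
    have h3 : ENNReal.ofReal c < ENNReal.ofReal (s : ℝ) := by
      rwa [ENNReal.ofReal_coe_nnreal]
    exact (ENNReal.ofReal_lt_ofReal_iff_of_nonneg hc0).1 h3
  have h3 : (s : ℝ≥0∞) < 1 := hs2.trans_le (min_le_right _ _)
  have h4 : s ≤ 1 := by exact_mod_cast h3.le
  have h5 : 0 < s := by
    have : (0 : ℝ) < s := lt_of_le_of_lt hc0 h2
    exact_mod_cast this
  exact absurd (h s h5 h4 h2) (not_le.2 (hs2.trans_le (min_le_left _ _)))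

theorem sb_pos {b : ℝ} (hb : 1 < b) : 0 ≤ Real.log 2 / Real.log (2 * b / (b - 1)) ∧
    Real.log 2 / Real.log (2 * b / (b - 1)) < 1 := by
  have h1 : 2 < 2 * b / (b - 1) := by
    rw [lt_div_iff₀ (by linarith)]
    linarith
  have h2 : Real.log 2 < Real.log (2 * b / (b - 1)) := Real.log_lt_log (by norm_num) h1
  have h3 : 0 < Real.log 2 := Real.log_pos (by norm_num)
  exact ⟨div_nonneg h3.le (h3.trans h2).le, (div_lt_one (h3.trans h2)).2 h2⟩

/-- **The bound for all `b`.** -/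
theorem dim_EO_le {b : ℝ} (hb : 1 < b) :
    dimH (EO b) ≤ ENNReal.ofReal (Real.log 2 / Real.log (2 * b / (b - 1))) := by
  refine of_crit (sb_pos hb).1 (sb_pos hb).2 fun s hs0 hs1 hs => ?_
  have hs0' : (0 : ℝ) < s := by exact_mod_cast hs0
  have hs1' : (s : ℝ) ≤ 1 := by exact_mod_cast hs1
  refine dim_EO hs0 hs1 fun k hk => crit hs0' hs1' hb ?_ k hk
  have hb0 : 0 < b := by linarith
  have hA0 : 0 < 1 - 1 / b := by
    have : 1 / b < 1 := by rw [div_lt_one hb0]; exact hb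
    linarith
  have h1 : 2 < 2 * b / (b - 1) := by
    rw [lt_div_iff₀ (by linarith)]
    linarith
  have h2 : 0 < Real.log (2 * b / (b - 1)) := Real.log_pos (by linarith)
  have h3 : Real.log (2 * b / (b - 1)) = Real.log 2 - Real.log (1 - 1 / b) := by
    rw [← Real.log_div (by norm_num) hA0.ne']
    congr 1
    field_simp
  rw [div_lt_iff₀ h2, h3] at hs
  have h4 : (2 : ℝ) ^ (1 - (s : ℝ)) * (1 - 1 / b) ^ (s : ℝ) =
      Real.exp (Real.log 2 * (1 - s) + Real.log (1 - 1 / b) * s) := by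
    rw [Real.exp_add, Real.rpow_def_of_pos (by norm_num), Real.rpow_def_of_pos hA0]
  rw [h4, Real.exp_lt_one_iff]
  nlinarith

end Pool.Agent.HX6.PF
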