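import Pool.Agent.HX6.PF.D

/-!
# A sharper bound for `b ≥ 3`
-/

set_option autoImplicit false

namespace Pool.Agent.HX6.PF

open MeasureTheory Set Filter Topology
open scoped ENNReal NNReal

theorem half_rpow {b l : ℝ} (hb : 0 ≤ b) (hl0 : 0 ≤ l) (hl1 : l ≤ 1) :
    (b ^ l + 1) / 2 ≤ ((b + 1) / 2) ^ l := by
  have h0 := (Real.concaveOn_rpow hl0 hl1).2
  have h := h0 (mem_Ici.2 hb) (mem_Ici.2 (zero_le_one (α := ℝ))) (by norm_num : (0 : ℝ) ≤ 1 / 2)
    (by norm_num : (0 : ℝ) ≤ 1 / 2) (by norm_num)
  simp only [smul_eq_mul, Real.one_rpow] at h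
  have e : (1 / 2 : ℝ) * b + 1 / 2 * 1 = (b + 1) / 2 := by ring
  rw [e] at h
  linarith

theorem crit2 {s b : ℝ} (hs0 : 0 < s) (hb : 3 ≤ b) (h : (b + 1) / 2 < b ^ s) (k : ℕ)
    (hk : 2 ≤ k) :
    (k : ℝ) ^ (1 - s) * (max 0 (1 - ((k : ℝ) - 1) / min b (k + ((k : ℝ) - 1)))) ^ s < 1 := by
  have hk2 : (2 : ℝ) ≤ k := by exact_mod_cast hk
  have hk0 : (0 : ℝ) < k := by linarith
  have hb0 : 0 < b := by linarith
  have hlb : 0 < Real.log b := Real.log_pos (by linarith)
  rcases le_or_gt ((k : ℝ) + (k - 1)) b with hc | hc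
  · rw [min_eq_right hc]
    set t : ℝ := (k : ℝ) + (k - 1) with ht
    have ht1 : 3 ≤ t := by linarith
    have ht0 : 0 < t := by linarith
    have e1 : 1 - ((k : ℝ) - 1) / t = k / t := by
      rw [eq_div_iff ht0.ne', sub_mul, div_mul_cancel₀ _ ht0.ne']
      rw [ht]; ring
    rw [e1, max_eq_right (by positivity), Real.div_rpow hk0.le ht0.le, ← mul_div_assoc,
      ← Real.rpow_add hk0, sub_add_cancel, Real.rpow_one, div_lt_one (Real.rpow_pos_of_pos ht0 _)]
    set l := Real.log t / Real.log b with hl
    have hl0 : 0 < l := div_pos (Real.log_pos (by linarith)) hlb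
    have hl1 : l ≤ 1 := (div_le_one hlb).2 (Real.log_le_log ht0 hc)
    have e2 : b ^ l = t := by
      rw [Real.rpow_def_of_pos hb0, hl, mul_div_cancel₀ _ hlb.ne', Real.exp_log ht0]
    have h1 := half_rpow hb0.le hl0.le hl1
    rw [e2] at h1
    have h2 : ((b + 1) / 2) ^ l < (b ^ s) ^ l := Real.rpow_lt_rpow (by positivity) h hl0
    have h3 : (b ^ s) ^ l = t ^ s := by
      rw [← Real.rpow_mul hb0.le, mul_comm, Real.rpow_mul hb0.le, e2]
    rw [h3] at h2
    have h4 : (t + 1) / 2 = k := by rw [ht]; ring
    linarith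
  · rw [min_eq_left hc.le]
    rcases le_or_gt (b + 1) k with hc2 | hc2
    · have h1 : 1 - ((k : ℝ) - 1) / b ≤ 0 := by
        have : 1 ≤ ((k : ℝ) - 1) / b := by rw [le_div_iff₀ hb0]; linarith
        linarith
      rw [max_eq_left h1, Real.zero_rpow hs0.ne', mul_zero]
      norm_num
    · set c : ℝ := (b + 1) / 2 with hcdef
      have hc0 : 2 ≤ c := by linarith
      have hcpos : 0 < c := by linarith
      have hck : c ≤ k := by linarith
      have h2c : 0 < b + 1 - k := by linarith
      have e1 : 1 - ((k : ℝ) - 1) / b = (b + 1 - k) / b := by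
        rw [eq_div_iff hb0.ne', sub_mul, div_mul_cancel₀ _ hb0.ne']; ring
      have hθ : 0 < (b + 1 - k) / b := div_pos h2c hb0
      rw [e1, max_eq_right hθ.le]
      have hlc : 0 < Real.log c := Real.log_pos (by linarith)
      set x : ℝ := Real.log k / Real.log c - 1 with hx
      have hx0 : 0 ≤ x := by
        have : 1 ≤ Real.log k / Real.log c := (one_le_div hlc).2 (Real.log_le_log hcpos hck)
        linarith
      have ex : Real.log k = Real.log c + x * Real.log c := by
        rw [hx]; field_simp; ring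
      have e2 : c ^ x = k / c := by
        rw [Real.rpow_def_of_pos hcpos]
        have : Real.log c * x = Real.log (k / c) := by
          rw [Real.log_div hk0.ne' hcpos.ne', ex]; ring
        rw [this, Real.exp_log (by positivity)]
      set P : ℝ := (c / b) ^ x with hP
      have hP0 : 0 < P := Real.rpow_pos_of_pos (by positivity) _
      have h3 : 1 ≤ k / c * P := by
        rw [← e2, hP, ← Real.mul_rpow hcpos.le (by positivity)]
        refine Real.one_le_rpow ?_ hx0
        rw [← mul_div_assoc, one_le_div hb0, hcdef]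
        nlinarith [sq_nonneg (b - 1)]
      have h4 : 2 ≤ k / c + P := by
        have : 0 < k / c := by positivity
        nlinarith [sq_nonneg (k / c - P)]
      have h5 : b + 1 - k ≤ c * P := by
        have h6 : c * 2 ≤ c * (k / c + P) := mul_le_mul_of_nonneg_left h4 hcpos.le
        have h7 : c * (k / c + P) = k + c * P := by field_simp
        rw [h7] at h6
        have h8 : c * 2 = b + 1 := by rw [hcdef]; ring
        linarith
      have h6 : Real.log (b + 1 - k) ≤ Real.log c + x * (Real.log c - Real.log b) := by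
        have h7 := Real.log_le_log h2c h5
        rw [Real.log_mul hcpos.ne' hP0.ne', hP, Real.log_rpow (by positivity),
          Real.log_div hcpos.ne' hb0.ne'] at h7
        exact h7
      have h7 : Real.log c < s * Real.log b := by
        have := Real.log_lt_log hcpos h
        rwa [Real.log_rpow hb0] at this
      have h8 : (k : ℝ) ^ (1 - s) * ((b + 1 - k) / b) ^ s =
          Real.exp (Real.log k * (1 - s) + (Real.log (b + 1 - k) - Real.log b) * s) := by
        rw [Real.exp_add, Real.rpow_def_of_pos hk0, Real.rpow_def_of_pos hθ,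
          Real.log_div h2c.ne' hb0.ne']
      rw [h8, Real.exp_lt_one_iff]
      have h9 : Real.log k * (1 - s) + (Real.log (b + 1 - k) - Real.log b) * s ≤
          Real.log k * (1 - s) + (Real.log c + x * (Real.log c - Real.log b) - Real.log b) * s := by
        have := mul_le_mul_of_nonneg_right h6 hs0.le
        linarith
      refine h9.trans_lt ?_
      rw [ex]
      have h10 : (Real.log c + x * Real.log c) * (1 - s) +
          (Real.log c + x * (Real.log c - Real.log b) - Real.log b) * s =
          (1 + x) * (Real.log c - s * Real.log b) := by ring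
      rw [h10]
      have : 0 < 1 + x := by linarith
      nlinarith

/-- **The bound for `b ≥ 3`.** -/
theorem dim_EO_le' {b : ℝ} (hb : 3 ≤ b) :
    dimH (EO b) ≤ ENNReal.ofReal (Real.log ((b + 1) / 2) / Real.log b) := by
  have hlb : 0 < Real.log b := Real.log_pos (by linarith)
  have h1 : Real.log ((b + 1) / 2) < Real.log b := Real.log_lt_log (by linarith) (by linarith)
  have h2 : 0 < Real.log ((b + 1) / 2) := Real.log_pos (by linarith)
  refine of_crit (div_nonneg h2.le hlb.le) ((div_lt_one hlb).2 h1) fun s hs0 hs1 hs => ?_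
  have hs0' : (0 : ℝ) < s := by exact_mod_cast hs0
  refine dim_EO hs0 hs1 fun k hk => crit2 hs0' hb ?_ k hk
  rw [div_lt_iff₀ hlb] at hs
  rw [Real.rpow_def_of_pos (by linarith), ← Real.log_lt_iff_lt_exp (by linarith)]
  linarith

end Pool.Agent.HX6.PF
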